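import Mathlib

set_option autoImplicit false

/-!
# Chains of a linear map: the forbidden residue classes
-/

namespace Pool.Agent.U255.CC

open Finset

/-- the geometric sum -/
def g (a : ℤ) (i : ℕ) : ℤ := ∑ j ∈ range i, a ^ j

/-- `T^i(n)`, where `T(m) = a m + b` -/
def term (a b : ℤ) (i : ℕ) (n : ℤ) : ℤ := (fun m : ℤ => a * m + b)^[i] n

lemma term_zero (a b n : ℤ) : term a b 0 n = n := rfl

lemma term_succ (a b : ℤ) (i : ℕ) (n : ℤ) : term a b (i + 1) n = a * term a b i n + b := by
  unfold term
  rw [Function.iterate_succ_apply']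

lemma term_add (a b : ℤ) (i j : ℕ) (n : ℤ) : term a b (i + j) n = term a b i (term a b j n) := by
  unfold term
  rw [Function.iterate_add_apply]

lemma g_succ (a : ℤ) (i : ℕ) : g a (i + 1) = a * g a i + 1 := by
  unfold g
  rw [geom_sum_succ]

lemma term_eq (a b : ℤ) (i : ℕ) (n : ℤ) : term a b i n = a ^ i * n + b * g a i := by
  induction i with
  | zero => simp [term_zero, g]
  | succ i ih =>
    rw [term_succ, ih, g_succ]
    ring

lemma term_first (i : ℕ) (n : ℤ) : term 2 1 i n = 2 ^ i * (n + 1) - 1 := by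
  induction i with
  | zero => simp [term_zero]
  | succ i ih =>
    rw [term_succ, ih]
    ring

lemma term_second (i : ℕ) (n : ℤ) : term 2 (-1) i n = 2 ^ i * (n - 1) + 1 := by
  induction i with
  | zero => simp [term_zero]
  | succ i ih =>
    rw [term_succ, ih]
    ring

lemma mul_g (a : ℤ) (i : ℕ) : g a i * (a - 1) = a ^ i - 1 := by
  unfold g
  exact geom_sum_mul a i

/-- the number of the residues `n` modulo `p` for which `p` divides one of the first `k` terms -/
def roots (a b : ℤ) (k p : ℕ) : ℕ :=
  ((range p).filter (fun n : ℕ => ∃ i < k, (p : ℤ) ∣ term a b i n)).card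

open Classical in
/-- the period of `0` modulo `p` under `T` (and `1` if `p` divides `a`) -/
noncomputable def period (a b : ℤ) (p : ℕ) : ℕ :=
  if (p : ℤ) ∣ a * b then 1 else if (p : ℤ) ∣ a - 1 then p else orderOf (a : ZMod p)

lemma card_image_period {α : Type*} [DecidableEq α] (c : ℕ → α) (m : ℕ) (hm : 1 ≤ m)
    (h : ∀ i j : ℕ, i ≤ j → (c i = c j ↔ m ∣ j - i)) (k : ℕ) :
    ((range k).image c).card = min k m := by
  have h1 : (range k).image c = (range (min k m)).image c := by
    ext x
    simp only [mem_image, mem_range]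
    constructor
    · rintro ⟨i, hi, rfl⟩
      refine ⟨i % m, lt_min ((Nat.mod_le i m).trans_lt hi) (Nat.mod_lt _ hm), ?_⟩
      rw [h _ _ (Nat.mod_le i m)]
      exact Nat.dvd_sub_mod i
    · rintro ⟨i, hi, rfl⟩
      exact ⟨i, hi.trans_le (min_le_left _ _), rfl⟩
  have key : ∀ i j : ℕ, i ≤ j → j < m → c i = c j → i = j := by
    intro i j hij hj hc
    rw [h i j hij] at hc
    have h2 : j - i = 0 := Nat.eq_zero_of_dvd_of_lt hc (by omega)
    omega
  rw [h1, card_image_of_injOn, card_range]
  intro i hi j hj hc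
  rw [coe_range, Set.mem_Iio] at hi hj
  have hi' := hi.trans_le (min_le_right _ _)
  have hj' := hj.trans_le (min_le_right _ _)
  rcases le_total i j with h2 | h2
  · exact key i j h2 hj' hc
  · exact (key j i h2 hi' hc.symm).symm

lemma cast_term (a b : ℤ) (p i : ℕ) (n : ℤ) :
    ((term a b i n : ℤ) : ZMod p) = (a : ZMod p) ^ i * (n : ZMod p) + (b : ZMod p) * ((g a i : ℤ) : ZMod p) := by
  rw [term_eq]
  push_cast
  ring

lemma dvd_term (a b : ℤ) (p i : ℕ) (n : ℤ) : (p : ℤ) ∣ term a b i n ↔
    (a : ZMod p) ^ i * (n : ZMod p) + (b : ZMod p) * ((g a i : ℤ) : ZMod p) = 0 := by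
  rw [← ZMod.intCast_zmod_eq_zero_iff_dvd, cast_term]

/-- **The number of the forbidden classes.** -/
theorem roots_eq (a b : ℤ) (k p : ℕ) (hp : p.Prime) (hk : 1 ≤ k) (hab : IsCoprime a b) :
    roots a b k p = min k (period a b p) := by
  classical
  haveI : Fact p.Prime := ⟨hp⟩
  have hpZ : Prime (p : ℤ) := Nat.prime_iff_prime_int.1 hp
  have hnot : ¬ ((p : ℤ) ∣ a ∧ (p : ℤ) ∣ b) := fun h => hpZ.not_unit (hab.isUnit_of_dvd' h.1 h.2)
  by_cases hpa : (p : ℤ) ∣ a
  · -- one class
    have hpb : ¬ (p : ℤ) ∣ b := fun h => hnot ⟨hpa, h⟩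
    have h1 : period a b p = 1 := by
      unfold period
      rw [if_pos (hpa.mul_right b)]
    rw [h1, min_eq_right hk]
    unfold roots
    rw [card_eq_one]
    refine ⟨0, ?_⟩
    ext n
    rw [mem_filter, mem_range, mem_singleton]
    constructor
    · rintro ⟨hn, i, hi, hd⟩
      rcases i with _ | i
      · rw [term_zero] at hd
        have h2 : p ∣ n := by exact_mod_cast hd
        exact Nat.eq_zero_of_dvd_of_lt h2 hn
      · exfalso
        rw [term_succ] at hd
        exact hpb ((Int.dvd_add_right (hpa.mul_right _)).1 hd)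
    · rintro rfl
      exact ⟨hp.pos, 0, by omega, by simp [term_zero]⟩
  · have ha0 : (a : ZMod p) ≠ 0 := fun h => hpa ((ZMod.intCast_zmod_eq_zero_iff_dvd a p).1 h)
    have hpow : ∀ i : ℕ, (a : ZMod p) ^ i ≠ 0 := fun i => pow_ne_zero i ha0
    obtain ⟨c, hc⟩ : ∃ c : ℕ → ZMod p, ∀ i, c i = -((b : ZMod p) * ((g a i : ℤ) : ZMod p)) / (a : ZMod p) ^ i :=
      ⟨fun i => -((b : ZMod p) * ((g a i : ℤ) : ZMod p)) / (a : ZMod p) ^ i, fun i => rfl⟩
    have hroot : ∀ (i : ℕ) (x : ZMod p), (a : ZMod p) ^ i * x + (b : ZMod p) * ((g a i : ℤ) : ZMod p) = 0 ↔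
        x = c i := by
      intro i x
      rw [hc, eq_div_iff (hpow i)]
      constructor
      · intro h
        linear_combination h
      · intro h
        linear_combination h
    have hroots : roots a b k p = ((range k).image c).card := by
      unfold roots
      apply card_bij (fun (n : ℕ) _ => (n : ZMod p))
      · intro n hn
        rw [mem_filter] at hn
        obtain ⟨_, i, hi, hd⟩ := hn
        rw [dvd_term] at hd
        have h2 := (hroot i ((n : ℤ) : ZMod p)).1 hd
        rw [mem_image]
        refine ⟨i, mem_range.2 hi, ?_⟩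
        rw [← h2]
        push_cast
        rfl
      · intro n hn m hm h
        rw [mem_filter, mem_range] at hn hm
        have h6 := congrArg ZMod.val h
        rwa [ZMod.val_cast_of_lt hn.1, ZMod.val_cast_of_lt hm.1] at h6
      · intro x hx
        rw [mem_image] at hx
        obtain ⟨i, hi, rfl⟩ := hx
        refine ⟨(c i).val, ?_, ZMod.natCast_zmod_val (c i)⟩
        rw [mem_filter, mem_range]
        refine ⟨ZMod.val_lt _, i, mem_range.1 hi, ?_⟩
        rw [dvd_term]
        have h3 : (((c i).val : ℤ) : ZMod p) = c i := by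
          push_cast
          exact ZMod.natCast_zmod_val (c i)
        rw [h3, hroot]
    -- coincidences
    have hcoin : ∀ i j : ℕ, i ≤ j → (c i = c j ↔ (b : ZMod p) * ((g a (j - i) : ℤ) : ZMod p) = 0) := by
      intro i j hij
      have h1 : (a : ZMod p) ^ j * c i + (b : ZMod p) * ((g a j : ℤ) : ZMod p) =
          (b : ZMod p) * ((g a (j - i) : ℤ) : ZMod p) := by
        obtain ⟨y, hy⟩ : ∃ y : ℤ, (y : ZMod p) = c i := ⟨((c i).val : ℤ), by
          push_cast
          exact ZMod.natCast_zmod_val (c i)⟩
        rw [← hy, ← cast_term]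
        have h2 : term a b j y = term a b (j - i) (term a b i y) := by
          rw [← term_add]
          congr 1
          omega
        rw [h2, cast_term, cast_term, hy, (hroot i (c i)).2 rfl, mul_zero, zero_add]
      rw [← hroot j (c i), h1]
    have hper : ∃ m : ℕ, m = period a b p ∧ 1 ≤ m ∧
        ∀ d : ℕ, (b : ZMod p) * ((g a d : ℤ) : ZMod p) = 0 ↔ m ∣ d := by
      refine ⟨_, rfl, ?_⟩
      by_cases hpb : (p : ℤ) ∣ b
      · have h1 : period a b p = 1 := by
          unfold period
          rw [if_pos (hpb.mul_left a)]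
        have hb0 : (b : ZMod p) = 0 := (ZMod.intCast_zmod_eq_zero_iff_dvd b p).2 hpb
        rw [h1]
        refine ⟨le_rfl, fun d => ?_⟩
        rw [hb0, zero_mul]
        simp
      · have hab' : ¬ (p : ℤ) ∣ a * b := fun h => (hpZ.dvd_or_dvd h).elim hpa hpb
        have hb0 : (b : ZMod p) ≠ 0 := fun h => hpb ((ZMod.intCast_zmod_eq_zero_iff_dvd b p).1 h)
        by_cases h1 : (p : ℤ) ∣ a - 1
        · have h2 : period a b p = p := by
            unfold period
            rw [if_neg hab', if_pos h1]
          rw [h2]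
          refine ⟨hp.one_lt.le, fun d => ?_⟩
          have ha1 : (a : ZMod p) = 1 := by
            have h3 := (ZMod.intCast_zmod_eq_zero_iff_dvd (a - 1) p).2 h1
            push_cast at h3
            linear_combination h3
          have h4 : ((g a d : ℤ) : ZMod p) = d := by
            unfold g
            push_cast
            rw [ha1]
            simp
          rw [h4, mul_eq_zero, or_iff_right hb0, ZMod.natCast_eq_zero_iff]
        · have h2 : period a b p = orderOf (a : ZMod p) := by
            unfold period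
            rw [if_neg hab', if_neg h1]
          rw [h2]
          have ha1 : (a : ZMod p) - 1 ≠ 0 := by
            intro h
            apply h1
            apply (ZMod.intCast_zmod_eq_zero_iff_dvd (a - 1) p).1
            push_cast
            exact h
          refine ⟨?_, fun d => ?_⟩
          · rw [Nat.one_le_iff_ne_zero, ← Nat.pos_iff_ne_zero, orderOf_pos_iff, isOfFinOrder_iff_pow_eq_one]
            exact ⟨p - 1, by have := hp.two_le; omega, ZMod.pow_card_sub_one_eq_one ha0⟩
          · have h4 : ((g a d : ℤ) : ZMod p) * ((a : ZMod p) - 1) = (a : ZMod p) ^ d - 1 := by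
              have := congrArg (fun z : ℤ => (z : ZMod p)) (mul_g a d)
              push_cast at this
              exact_mod_cast this
            rw [mul_eq_zero, or_iff_right hb0, orderOf_dvd_iff_pow_eq_one]
            constructor
            · intro h
              rw [h, zero_mul] at h4
              linear_combination -h4
            · intro h
              rw [h, sub_self] at h4
              exact (mul_eq_zero.1 h4).resolve_right ha1
    obtain ⟨m, hm, hm1, hmd⟩ := hper
    rw [hroots, ← hm]
    apply card_image_period c m hm1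
    intro i j hij
    rw [hcoin i j hij, hmd]

/-- the maps for which there is no local obstruction -/
def Adm (k : ℕ) (a b : ℤ) : Prop :=
  2 ≤ |a| ∧ IsCoprime a b ∧ ∀ p : ℕ, p.Prime → p ≤ k → (p : ℤ) ∣ a - 1 → (p : ℤ) ∣ b

lemma adm_first (k : ℕ) : Adm k 2 1 := by
  refine ⟨by norm_num, isCoprime_one_right, fun p hp _ h => ?_⟩
  norm_num at h
  have h1 : (p : ℤ) ∣ 1 := h
  exact h1

lemma adm_second (k : ℕ) : Adm k 2 (-1) := by
  refine ⟨by norm_num, isCoprime_one_right.neg_right, fun p hp _ h => ?_⟩
  norm_num at h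
  exact (h : (p : ℤ) ∣ 1).neg_right

/-- no local obstruction -/
lemma exists_start (k : ℕ) (a b : ℤ) (h : Adm k a b) (p : ℕ) (hp : p.Prime) :
    ∃ n : ℕ, ∀ i < k, ¬ (p : ℤ) ∣ term a b i n := by
  haveI : Fact p.Prime := ⟨hp⟩
  obtain ⟨_, hab, h3⟩ := h
  have hpZ : Prime (p : ℤ) := Nat.prime_iff_prime_int.1 hp
  have hnot : ¬ ((p : ℤ) ∣ a ∧ (p : ℤ) ∣ b) := fun h => hpZ.not_unit (hab.isUnit_of_dvd' h.1 h.2)
  have h10 : (1 : ZMod p) ≠ 0 := one_ne_zero
  by_cases hpb : (p : ℤ) ∣ b
  · -- `n = 1`
    have hpa : ¬ (p : ℤ) ∣ a := fun h => hnot ⟨h, hpb⟩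
    refine ⟨1, fun i _ hd => ?_⟩
    rw [term_eq] at hd
    have h4 := (Int.dvd_add_left (hpb.mul_right (g a i))).1 hd
    push_cast at h4
    rw [mul_one] at h4
    exact hpa (hpZ.dvd_of_dvd_pow h4)
  · have hb0 : (b : ZMod p) ≠ 0 := fun h => hpb ((ZMod.intCast_zmod_eq_zero_iff_dvd b p).1 h)
    by_cases h1 : (p : ℤ) ∣ a - 1
    · -- `n = b`
      have ha1 : (a : ZMod p) = 1 := by
        have h3 := (ZMod.intCast_zmod_eq_zero_iff_dvd (a - 1) p).2 h1
        push_cast at h3
        linear_combination h3
      have hkp : k < p := by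
        by_contra hcon
        exact hpb (h3 p hp (by omega) h1)
      refine ⟨(b : ZMod p).val, fun i hi hd => ?_⟩
      rw [dvd_term] at hd
      have h4 : ((g a i : ℤ) : ZMod p) = i := by
        unfold g
        push_cast
        rw [ha1]
        simp
      rw [h4, ha1] at hd
      push_cast at hd
      rw [ZMod.natCast_zmod_val] at hd
      have h5 : (b : ZMod p) * ((i + 1 : ℕ) : ZMod p) = 0 := by
        push_cast
        linear_combination hd
      rcases mul_eq_zero.1 h5 with h6 | h6
      · exact hb0 h6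
      · rw [ZMod.natCast_eq_zero_iff] at h6
        have := Nat.le_of_dvd (by omega) h6
        omega
    · have ha1 : (1 : ZMod p) - (a : ZMod p) ≠ 0 := by
        intro h
        apply h1
        apply (ZMod.intCast_zmod_eq_zero_iff_dvd (a - 1) p).1
        push_cast
        linear_combination -h
      refine ⟨((b : ZMod p) / (1 - (a : ZMod p))).val, fun i _ hd => ?_⟩
      rw [dvd_term] at hd
      push_cast at hd
      rw [ZMod.natCast_zmod_val] at hd
      have h4 : ((g a i : ℤ) : ZMod p) * ((a : ZMod p) - 1) = (a : ZMod p) ^ i - 1 := by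
        have := congrArg (fun z : ℤ => (z : ZMod p)) (mul_g a i)
        push_cast at this
        exact_mod_cast this
      have h5 : (b : ZMod p) = 0 := by
        have h6 : (a : ZMod p) ^ i * b + (b : ZMod p) * (((g a i : ℤ) : ZMod p) * (1 - (a : ZMod p))) = 0 := by
          have h7 : ((a : ZMod p) ^ i * ((b : ZMod p) / (1 - (a : ZMod p))) +
            (b : ZMod p) * ((g a i : ℤ) : ZMod p)) * (1 - (a : ZMod p)) = 0 := by
            rw [hd, zero_mul]
          rw [← h7]
          field_simp
        linear_combination h6 + (b : ZMod p) * h4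
      exact hb0 h5

end Pool.Agent.U255.CC
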