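import Pool.Agent.U255.CC.Chain
import Pool.Agent.U404.JL.Gen
import Pool.Agent.R463.PL

set_option autoImplicit false

/-!
# Chains of a linear map: the system of linear forms
-/

namespace Pool.Agent.U255.CC

open Polynomial Finset Filter
open Pool.Agent.W123.RP Pool.Agent.H373R2.T7 Pool.Agent.W123.RU Pool.Agent.W123.RU.Poly
open Pool.Agent.TH464.PW Pool.Agent.TH464.PO Pool.Agent.Y879.GL Pool.Agent.R463.PP

/-- the system -/
noncomputable def sys (a b : ℤ) (k : ℕ) : Fin k → ℤ[X] :=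
  fun i => C (a ^ (i : ℕ)) * X + C (b * g a i)

lemma sys_eval (a b : ℤ) (k : ℕ) (i : Fin k) (n : ℤ) : (sys a b k i).eval n = term a b i n := by
  rw [term_eq]
  simp [sys]

lemma Q_sys (a b : ℤ) (k p m : ℕ) : Q (sys a b k) p m ↔ ∃ i < k, (p : ℤ) ∣ term a b i m := by
  unfold Q
  constructor
  · rintro ⟨i, hi⟩
    exact ⟨i, i.2, by rwa [sys_eval] at hi⟩
  · rintro ⟨i, hi, h⟩
    exact ⟨⟨i, hi⟩, by rwa [sys_eval]⟩

lemma nuB_sys (a b : ℤ) (k p : ℕ) : nuB (Q (sys a b k)) p = roots a b k p := by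
  classical
  unfold nuB roots
  congr 1
  apply filter_congr
  intro m _
  exact Q_sys a b k p m

lemma g_bound (a : ℤ) (M : ℝ) (hM : 1 ≤ M) (ha : |(a : ℝ)| ≤ M) (i k : ℕ) (hik : i ≤ k) :
    |((g a i : ℤ) : ℝ)| ≤ k * M ^ k := by
  unfold g
  push_cast
  refine (abs_sum_le_sum_abs _ _).trans ?_
  have h1 : ∀ j ∈ range i, |(a : ℝ) ^ j| ≤ M ^ k := by
    intro j hj
    rw [abs_pow]
    calc |(a : ℝ)| ^ j ≤ M ^ j := pow_le_pow_left₀ (abs_nonneg _) ha j
      _ ≤ M ^ k := pow_le_pow_right₀ hM (by rw [mem_range] at hj; omega)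
  refine (sum_le_sum h1).trans ?_
  rw [sum_const, card_range, nsmul_eq_mul]
  apply mul_le_mul_of_nonneg_right _ (by positivity)
  exact_mod_cast hik

lemma coprime_g (a b : ℤ) (hab : IsCoprime a b) (i : ℕ) : IsCoprime (a ^ i) (b * g a i) := by
  rcases i with _ | i
  · rw [pow_zero]
    exact isCoprime_one_left
  · apply IsCoprime.pow_left
    apply IsCoprime.mul_right hab
    rw [g_succ]
    exact ⟨-g a i, 1, by ring⟩

lemma sys_us (a b : ℤ) (k : ℕ) (hk : 1 ≤ k) (h : Adm k a b) (M U : ℝ) (hM : 1 ≤ M) (ha : |(a : ℝ)| ≤ M)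
    (hb : |(b : ℝ)| ≤ M) : US k 1 (k * M ^ (k + 1)) U (sys a b k) where
  irr := by
    intro i
    have ha0 : a ≠ 0 := by
      rintro rfl
      have := h.1
      norm_num at this
    exact Polynomial.irreducible_C_mul_X_add_C (pow_ne_zero _ ha0) (coprime_g a b h.2.1 i).isRelPrime
  deg := by
    intro i
    have ha0 : a ≠ 0 := by
      rintro rfl
      have := h.1
      norm_num at this
    unfold sys
    rw [Polynomial.natDegree_linear (pow_ne_zero _ ha0)]
    exact one_ne_zero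
  degD := by
    intro i
    have ha0 : a ≠ 0 := by
      rintro rfl
      have := h.1
      norm_num at this
    unfold sys
    rw [Polynomial.natDegree_linear (pow_ne_zero _ ha0)]
  hgt := by
    intro i n
    have hk1 : (1 : ℝ) ≤ k := by exact_mod_cast hk
    have hM0 : 0 ≤ M := by linarith
    have hB : 0 ≤ (k : ℝ) * M ^ (k + 1) := by positivity
    unfold sys
    rw [coeff_add, coeff_C_mul, coeff_X, coeff_C]
    rcases n with _ | _ | n
    · simp only [zero_ne_one, one_ne_zero, if_false, mul_zero, if_true, zero_add]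
      push_cast
      rw [abs_mul]
      calc |(b : ℝ)| * |((g a i : ℤ) : ℝ)| ≤ M * (k * M ^ k) :=
            mul_le_mul hb (g_bound a M hM ha i k i.2.le) (abs_nonneg _) hM0
        _ = k * M ^ (k + 1) := by ring
    · simp only [zero_add, if_true, mul_one, one_ne_zero, if_false, add_zero]
      push_cast
      rw [abs_pow]
      calc |(a : ℝ)| ^ (i : ℕ) ≤ M ^ (i : ℕ) := pow_le_pow_left₀ (abs_nonneg _) ha _
        _ ≤ M ^ (k + 1) := pow_le_pow_right₀ hM (by have := i.2; omega)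
        _ ≤ k * M ^ (k + 1) := le_mul_of_one_le_left (by positivity) hk1
    · have e1 : ¬ (1 = n + 1 + 1) := by omega
      have e2 : ¬ (n + 1 + 1 = 0) := by omega
      rw [if_neg e1, if_neg e2]
      simpa using hB
  adm := by
    intro p hp
    obtain ⟨n, hn⟩ := exists_start k a b h p hp
    exact ⟨n, fun i => by rw [sys_eval]; exact hn i i.2⟩
  tr := by
    intro i j t ht _ has
    have ha0 : a ≠ 0 := by
      rintro rfl
      have := h.1
      norm_num at this
    obtain ⟨u, hu⟩ := has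
    obtain ⟨c, hc, hcu⟩ := Polynomial.isUnit_iff.1 u.isUnit
    rw [← hcu] at hu
    have h1 := congrArg (Polynomial.eval 1) hu
    have h0 := congrArg (Polynomial.eval 0) hu
    simp only [sys, Polynomial.eval_comp, Polynomial.eval_mul, Polynomial.eval_add, Polynomial.eval_C,
      Polynomial.eval_X] at h0 h1
    have hlead : a ^ (i : ℕ) * c = a ^ (j : ℕ) := by linear_combination h1 - h0
    have habs : |a| ^ (i : ℕ) = |a| ^ (j : ℕ) := by
      have h2 := congrArg abs hlead
      rw [abs_mul, abs_pow, abs_pow, Int.isUnit_iff_abs_eq.1 hc, mul_one] at h2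
      exact h2
    have hij : (i : ℕ) = j := by
      have h2 : 1 < |a| := by linarith [h.1]
      exact pow_right_injective₀ (by linarith) h2.ne' habs
    rw [hij] at hlead h0
    have hc1 : c = 1 := by
      have h3 : a ^ (j : ℕ) * c = a ^ (j : ℕ) * 1 := by rw [mul_one]; exact hlead
      exact mul_left_cancel₀ (pow_ne_zero _ ha0) h3
    rw [hc1] at h0
    have h4 : a ^ (j : ℕ) * (t : ℤ) = 0 := by linear_combination -h0
    rcases mul_eq_zero.1 h4 with h5 | h5
    · exact pow_ne_zero _ ha0 h5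
    · have : t = 0 := by exact_mod_cast h5
      omega

/-- the density bound -/
lemma V_bound (K : ℕ) (hK : 2 ≤ K) : ∃ C : ℝ, 0 < C ∧ ∀ᶠ X : ℕ in atTop, ∀ (k : ℕ), 1 ≤ k → ∀ a b : ℤ,
    Vq (Q (sys a b k)) ⌊(X : ℝ) ^ (1 / (K : ℝ))⌋₊ ≤ C / Real.log X := by
  obtain ⟨C, hC, hV⟩ := Pool.Agent.R463.PS.V_le_fixed Polynomial.X Polynomial.irreducible_X
    (by rw [Polynomial.natDegree_X]) (by rw [Polynomial.leadingCoeff_X]; exact one_pos)
    (fun p hp => ⟨1, by
      rw [Polynomial.eval_X]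
      intro hd
      have h1 : p ∣ 1 := by exact_mod_cast hd
      exact hp.one_lt.ne' (Nat.dvd_one.1 h1)⟩) K hK
  refine ⟨C, hC, ?_⟩
  filter_upwards [hV] with X hX k hk a b
  have := hX k (sys a b k) ⟨⟨0, hk⟩, by simp [sys, g]⟩
  rwa [Pool.Agent.R463.PS.V_eq] at this

lemma height (k A : ℕ) (X : ℝ) (hX : (k : ℝ) ≤ X) (hX1 : 1 ≤ X) :
    (k : ℝ) * (X ^ A) ^ (k + 1) ≤ X ^ (((A * (k + 1) + 1 : ℕ) : ℝ)) := by
  rw [Real.rpow_natCast, ← pow_mul, pow_succ, mul_comm]
  exact mul_le_mul_of_nonneg_left hX (by positivity)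

end Pool.Agent.U255.CC
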